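import Mathlib

set_option autoImplicit false

open Polynomial Module

namespace Pool.Agent.P.MP_ac4bd0_al

theorem trace_pow_formula {V : Type} [AddCommGroup V] [Module ℂ V] [FiniteDimensional ℂ V]
    (A : End ℂ V) (N : ℕ) [NeZero N] (hA : A ^ N = 1) (ζ : ℂ) (hζ : IsPrimitiveRoot ζ N) :
    ∃ P : ℤ[X], ∀ k : ℕ, LinearMap.trace ℂ V (A ^ k) = aeval (ζ ^ k) P := by
  classical
  have hss : A.IsSemisimple := by
    apply End.isSemisimple_of_squarefree_aeval_eq_zero (p := X ^ N - 1)
    · exact (X_pow_sub_one_separable_iff.mpr (NeZero.natCast_ne N ℂ)).squarefree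
    · simp [hA]
  have hint : DirectSum.IsInternal A.eigenspace :=
    DirectSum.isInternal_submodule_of_iSupIndep_of_iSup_eq_top A.eigenspaces_iSupIndep
      hss.iSup_eigenspace_eq_top
  have hfin : {μ | A.eigenspace μ ≠ ⊥}.Finite := A.finite_hasEigenvalue
  have hpow : ∀ (μ : ℂ) (k : ℕ), ∀ v ∈ A.eigenspace μ, (A ^ k) v = μ ^ k • v := by
    intro μ k v hv
    have := End.aeval_apply_of_mem_apply_eq_smul (p := X ^ k) (End.mem_eigenspace_iff.mp hv)
    simpa using this
  have hroot : ∀ μ : ℂ, ∃ j : ℕ, A.eigenspace μ ≠ ⊥ → ζ ^ j = μ := by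
    intro μ
    by_cases h : A.eigenspace μ = ⊥
    · exact ⟨0, fun h' => absurd h h'⟩
    · obtain ⟨v, hv, hv0⟩ := (Submodule.ne_bot_iff _).mp h
      have h1 := hpow μ N v hv
      rw [hA, End.one_apply] at h1
      have h2 : μ ^ N = 1 := by
        have : (μ ^ N - 1) • v = 0 := by rw [sub_smul, one_smul, ← h1, sub_self]
        exact sub_eq_zero.mp ((smul_eq_zero.mp this).resolve_right hv0)
      obtain ⟨j, -, hj⟩ := hζ.eq_pow_of_pow_eq_one h2
      exact ⟨j, fun _ => hj⟩
  choose j hj using hroot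
  refine ⟨∑ μ ∈ hfin.toFinset, C (finrank ℂ (A.eigenspace μ) : ℤ) * X ^ j μ, fun k => ?_⟩
  have hmaps : ∀ μ, Set.MapsTo (A ^ k) (A.eigenspace μ) (A.eigenspace μ) := by
    intro μ v hv
    rw [SetLike.mem_coe, hpow μ k v hv]
    exact Submodule.smul_mem _ _ hv
  rw [LinearMap.trace_eq_sum_trace_restrict' hint hfin hmaps, map_sum]
  refine Finset.sum_congr rfl (fun μ hμ => ?_)
  have hμ' : A.eigenspace μ ≠ ⊥ := by simpa using hμ
  have : (A ^ k).restrict (hmaps μ) = μ ^ k • LinearMap.id := by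
    ext v
    exact hpow μ k v v.2
  rw [this, map_smul, LinearMap.trace_id]
  simp only [map_mul, map_pow, aeval_X, smul_eq_mul, map_natCast]
  rw [← pow_mul, mul_comm k, pow_mul, hj μ hμ', mul_comm]

theorem rat_unit_norm (q : ℚ) (hq : IsIntegral ℤ q) (r : ℚ) (hr : IsIntegral ℤ r)
    (h : q * r = 1) : ‖(q : ℂ)‖ = 1 := by
  obtain ⟨a, rfl⟩ := IsIntegrallyClosed.isIntegral_iff.mp hq
  obtain ⟨b, rfl⟩ := IsIntegrallyClosed.isIntegral_iff.mp hr
  have : a * b = 1 := by
    have h2 : ((a * b : ℤ) : ℚ) = 1 := by simpa using h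
    exact_mod_cast h2
  rcases Int.eq_one_or_neg_one_of_mul_eq_one this with rfl | rfl <;> simp

theorem norm_eq_one_of_scalar {G : Type} [Group G] [Fintype G] (N : ℕ) [NeZero N]
    (hN : ∀ g : G, g ^ N = 1)
    (hG : ∀ k : ℕ, k.Coprime N → (∀ g : G, IsConj g (g ^ k)) ∨ (∀ g : G, IsConj g⁻¹ (g ^ k)))
    {V : Type} [AddCommGroup V] [Module ℂ V] [FiniteDimensional ℂ V] [Nontrivial V]
    (ρ : G →* End ℂ V) (c : G → ℤ) (μ : ℂ) (hμ : ∑ g, c g • ρ g = μ • LinearMap.id)
    (h0 : μ ≠ 0) (hi : IsIntegral ℤ μ) (hi' : IsIntegral ℤ μ⁻¹) : ‖μ‖ = 1 := by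
  classical
  obtain ⟨ζ, hζ⟩ : ∃ ζ : ℂ, IsPrimitiveRoot ζ N :=
    ⟨_, Complex.isPrimitiveRoot_exp N (NeZero.ne N)⟩
  choose P hP using fun g : G =>
    trace_pow_formula (ρ g) N (by rw [← map_pow, hN, map_one]) ζ hζ
  have hconj : ∀ g h : G, IsConj g h →
      LinearMap.trace ℂ V (ρ g) = LinearMap.trace ℂ V (ρ h) := by
    intro g h hgh
    obtain ⟨d, rfl⟩ := isConj_iff.mp hgh
    rw [map_mul, LinearMap.trace_mul_comm, ← map_mul]
    simp
  have hd : (finrank ℂ V : ℂ) ≠ 0 := Nat.cast_ne_zero.mpr finrank_pos.ne'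
  have htr : ∑ g, (c g : ℂ) * LinearMap.trace ℂ V (ρ g) = μ * finrank ℂ V := by
    have := congrArg (LinearMap.trace ℂ V) hμ
    rw [map_sum] at this
    simp only [map_zsmul] at this
    simpa using this
  have hζconj : ζ ^ (N - 1) = (starRingEnd ℂ) ζ := by
    have h1 : ‖ζ‖ = 1 := hζ.norm'_eq_one (NeZero.ne N)
    have h2 : ζ ≠ 0 := hζ.ne_zero (NeZero.ne N)
    apply mul_left_cancel₀ h2
    rw [← pow_succ', Nat.sub_add_cancel NeZero.one_le, hζ.pow_eq_one, Complex.mul_conj,
      Complex.normSq_eq_norm_sq, h1]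
    simp
  have hinv : ∀ g : G, LinearMap.trace ℂ V (ρ g⁻¹) =
      (starRingEnd ℂ) (LinearMap.trace ℂ V (ρ g)) := by
    intro g
    have h1 : g⁻¹ = g ^ (N - 1) := by
      rw [inv_eq_iff_mul_eq_one, ← pow_succ', Nat.sub_add_cancel NeZero.one_le, hN]
    have h2 := hP g 1
    rw [pow_one, pow_one] at h2
    rw [h1, map_pow, hP, hζconj, h2]
    exact aeval_algHom_apply ((starRingEnd ℂ).toIntAlgHom) ζ (P g)
  let L := IntermediateField.adjoin ℚ ({ζ} : Set ℂ)
  have hζint : IsIntegral ℚ ζ := (hζ.isIntegral (NeZero.pos N)).tower_top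
  have : FiniteDimensional ℚ L := IntermediateField.adjoin.finiteDimensional hζint
  let z : L := IntermediateField.AdjoinSimple.gen ℚ ζ
  have hz : IsPrimitiveRoot z N :=
    IsPrimitiveRoot.of_map_of_injective (f := L.val) hζ L.val.injective
  let x : L := (∑ g, (c g : L) * aeval z (P g)) / (finrank ℂ V : L)
  have hσ : ∀ (σ : L →ₐ[ℚ] ℂ) (k : ℕ), σ z = ζ ^ k →
      σ x = (∑ g, (c g : ℂ) * LinearMap.trace ℂ V (ρ (g ^ k))) / (finrank ℂ V : ℂ) := by
    intro σ k hk
    simp only [x, map_div₀, map_sum, map_mul, map_intCast, map_natCast]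
    congr 1
    refine Finset.sum_congr rfl (fun g _ => ?_)
    rw [map_pow, hP, ← hk]
    congr 1
    exact (aeval_algHom_apply (σ.restrictScalars ℤ) z (P g)).symm
  have hx : L.val x = μ := by
    have := hσ L.val 1 (by rw [pow_one]; rfl)
    simp only [pow_one] at this
    rw [htr, mul_div_cancel_right₀ _ hd] at this
    exact this
  have hnorm : ∀ σ : L →ₐ[ℚ] ℂ, ‖σ x‖ = ‖μ‖ := by
    intro σ
    obtain ⟨k, -, hk, hk'⟩ := hζ.isPrimitiveRoot_iff.mp (hz.map_of_injective σ.injective)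
    rw [hσ σ k hk'.symm]
    rcases hG k hk with h | h
    · simp_rw [← fun g => hconj _ _ (h g)]
      rw [htr, mul_div_cancel_right₀ _ hd]
    · simp_rw [← fun g => hconj _ _ (h g), hinv]
      have : ∑ g, (c g : ℂ) * (starRingEnd ℂ) (LinearMap.trace ℂ V (ρ g)) =
          (starRingEnd ℂ) μ * finrank ℂ V := by
        have := congrArg (starRingEnd ℂ) htr
        simpa [map_sum] using this
      rw [this, mul_div_cancel_right₀ _ hd, Complex.norm_conj]
  have hx0 : x ≠ 0 := by
    intro h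
    rw [h, map_zero] at hx
    exact h0 hx.symm
  have hxi : IsIntegral ℤ x := by
    rw [← isIntegral_algHom_iff (L.val.restrictScalars ℤ) L.val.injective]
    show IsIntegral ℤ (L.val x)
    rwa [hx]
  have hxi' : IsIntegral ℤ x⁻¹ := by
    rw [← isIntegral_algHom_iff (L.val.restrictScalars ℤ) L.val.injective]
    show IsIntegral ℤ (L.val x⁻¹)
    rwa [map_inv₀, hx]
  have h1 := rat_unit_norm _ (Algebra.isIntegral_norm ℚ hxi) _ (Algebra.isIntegral_norm ℚ hxi')
    (by rw [← map_mul, mul_inv_cancel₀ hx0, map_one])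
  have h2 := Algebra.norm_eq_prod_embeddings ℚ ℂ x
  rw [eq_ratCast] at h2
  rw [h2, norm_prod] at h1
  simp only [hnorm, Finset.prod_const] at h1
  have hcard : (Finset.univ : Finset (L →ₐ[ℚ] ℂ)).card ≠ 0 :=
    (Finset.card_pos.mpr ⟨L.val, Finset.mem_univ _⟩).ne'
  exact (pow_eq_one_iff_of_nonneg (norm_nonneg _) hcard).mp h1

/-- The left regular representation on functions. -/
noncomputable def reg (G : Type) [Group G] : G →* End ℂ (G → ℂ) where
  toFun g := LinearMap.funLeft ℂ ℂ (fun x => g⁻¹ * x)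
  map_one' := by ext f x; simp [LinearMap.funLeft]
  map_mul' g h := by ext f x; simp [LinearMap.funLeft, mul_assoc]

theorem trace_reg {G : Type} [Group G] [Fintype G] [DecidableEq G] (g : G) :
    LinearMap.trace ℂ (G → ℂ) (reg G g) = if g = 1 then (Fintype.card G : ℂ) else 0 := by
  rw [LinearMap.trace_eq_matrix_trace ℂ (Pi.basisFun ℂ G), Matrix.trace]
  simp only [Matrix.diag, LinearMap.toMatrix_apply, reg, MonoidHom.coe_mk, OneHom.coe_mk,
    Pi.basisFun_apply, Pi.basisFun_repr, LinearMap.funLeft_apply, Pi.single_apply]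
  by_cases hg : g = 1
  · simp [hg]
  · simp [hg]

theorem isIntegral_eigen {G : Type} [Group G] [Finite G] {V : Type} [AddCommGroup V] [Module ℂ V]
    (Λ : MonoidAlgebra ℤ G →ₐ[ℤ] End ℂ V) (w : MonoidAlgebra ℤ G) (μ : ℂ) (v : V) (hv : v ≠ 0)
    (h : Λ w v = μ • v) : IsIntegral ℤ μ := by
  obtain ⟨p, hp, hp0⟩ : IsIntegral ℤ (Λ w) :=
    (Algebra.IsIntegral.isIntegral (R := ℤ) w).map_of_comp_eq (RingHom.id ℤ) Λ.toRingHom
      (by ext; simp)
  refine ⟨p, hp, ?_⟩
  have h1 := End.aeval_apply_of_mem_apply_eq_smul (p := p.map (algebraMap ℤ ℂ)) h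
  rw [aeval_map_algebraMap, aeval_def, hp0, eval_map] at h1
  exact (smul_eq_zero.mp h1.symm).resolve_right hv

theorem coeff_one_le {G : Type} [Group G] [Finite G] (N : ℕ) [NeZero N]
    (hN : ∀ g : G, g ^ N = 1)
    (hG : ∀ k : ℕ, k.Coprime N → (∀ g : G, IsConj g (g ^ k)) ∨ (∀ g : G, IsConj g⁻¹ (g ^ k)))
    (w w' : MonoidAlgebra ℤ G) (hw : w' * w = 1)
    (hc : ∀ g : G, w * MonoidAlgebra.of ℤ G g = MonoidAlgebra.of ℤ G g * w) :
    w.coeff 1 ≤ 1 := by
  classical
  have := Fintype.ofFinite G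
  let Λ := MonoidAlgebra.lift ℤ (End ℂ (G → ℂ)) G (reg G)
  have hΛ : Λ w = ∑ g, w.coeff g • reg G g := by
    rw [MonoidAlgebra.lift_apply, Finsupp.sum_fintype _ _ (by simp)]
  have hcomm : ∀ g, Λ w * reg G g = reg G g * Λ w := by
    intro g
    have := congrArg Λ (hc g)
    rwa [map_mul, map_mul, MonoidAlgebra.lift_of] at this
  have hroots : ∀ μ ∈ (Λ w).charpoly.roots, ‖μ‖ = 1 := by
    intro μ hμ
    have hev : (Λ w).HasEigenvalue μ :=
      (End.hasEigenvalue_iff_isRoot_charpoly _ _).mpr (isRoot_of_mem_roots hμ)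
    obtain ⟨v, hv, hv0⟩ := hev.exists_hasEigenvector
    have hv' : Λ w v = μ • v := End.mem_eigenspace_iff.mp hv
    have h1 : μ • Λ w' v = v := by
      rw [← map_smul, ← hv', ← End.mul_apply, ← map_mul, hw, map_one, End.one_apply]
    have h0 : μ ≠ 0 := by
      rintro rfl
      rw [zero_smul] at h1
      exact hv0 h1.symm
    have h2 : Λ w' v = μ⁻¹ • v := by
      rw [eq_inv_smul_iff₀ h0]
      exact h1
    let E := (Λ w).eigenspace μ
    have hE : ∀ g, ∀ x ∈ E, reg G g x ∈ E := by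
      intro g x hx
      rw [End.mem_eigenspace_iff] at hx ⊢
      rw [← End.mul_apply, hcomm, End.mul_apply, hx, map_smul]
    let ρ : G →* End ℂ E :=
      { toFun := fun g => (reg G g).restrict (hE g)
        map_one' := by ext x; simp
        map_mul' := fun g h => by ext x; simp }
    have : Nontrivial E := Submodule.nontrivial_iff_ne_bot.mpr hev
    refine norm_eq_one_of_scalar N hN hG ρ w.coeff μ ?_ h0 (isIntegral_eigen Λ w μ v hv0 hv')
      (isIntegral_eigen Λ w' _ v hv0 h2)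
    refine LinearMap.ext (fun x => Subtype.ext ?_)
    have hx : Λ w x = μ • (x : G → ℂ) := End.mem_eigenspace_iff.mp x.2
    rw [hΛ] at hx
    simpa [ρ, LinearMap.sum_apply] using hx
  have htr : LinearMap.trace ℂ (G → ℂ) (Λ w) = (w.coeff 1 : ℂ) * Fintype.card G := by
    rw [hΛ, map_sum]
    simp only [map_zsmul, trace_reg]
    simp
  have hsplit := IsAlgClosed.splits (Λ w).charpoly
  rw [End.trace_eq_sum_roots_charpoly_of_splits hsplit] at htr
  have hcard : (Λ w).charpoly.roots.card = Fintype.card G := by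
    rw [← hsplit.natDegree_eq_card_roots, LinearMap.charpoly_natDegree, finrank_fintype_fun_eq_card]
  have hle : ‖(Λ w).charpoly.roots.sum‖ ≤ Fintype.card G := by
    refine (norm_multiset_sum_le _).trans ?_
    rw [Multiset.map_congr rfl hroots]
    simp [hcard]
  rw [htr, norm_mul, Complex.norm_natCast, Complex.norm_intCast] at hle
  have hpos : (0 : ℝ) < Fintype.card G := by exact_mod_cast Fintype.card_pos
  have h3 : |(w.coeff 1 : ℝ)| ≤ 1 := by
    by_contra h
    nlinarith
  have h4 : (w.coeff 1 : ℝ) ≤ 1 := (abs_le.mp h3).2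
  exact_mod_cast h4

/-- The anti-automorphism of the integral group ring induced by inversion. -/
noncomputable def antip (G : Type) [Group G] :
    MonoidAlgebra ℤ G →ₐ[ℤ] (MonoidAlgebra ℤ G)ᵐᵒᵖ :=
  MonoidAlgebra.lift ℤ _ G
    { toFun := fun g => MulOpposite.op (MonoidAlgebra.of ℤ G g⁻¹)
      map_one' := by simp [MonoidAlgebra.one_def]
      map_mul' := fun g h => by rw [mul_inv_rev, map_mul, MulOpposite.op_mul] }

theorem antip_of {G : Type} [Group G] (g : G) :
    antip G (MonoidAlgebra.of ℤ G g) = MulOpposite.op (MonoidAlgebra.of ℤ G g⁻¹) := by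
  rw [antip, MonoidAlgebra.lift_of]
  rfl

theorem central_unit_trivial {G : Type} [Group G] [Finite G] (N : ℕ) [NeZero N]
    (hN : ∀ g : G, g ^ N = 1)
    (hG : ∀ k : ℕ, k.Coprime N → (∀ g : G, IsConj g (g ^ k)) ∨ (∀ g : G, IsConj g⁻¹ (g ^ k)))
    (u : (MonoidAlgebra ℤ G)ˣ) :
    u ∈ Subgroup.center (MonoidAlgebra ℤ G)ˣ ↔
      ∃ z ∈ Subgroup.center G, (u : MonoidAlgebra ℤ G) = MonoidAlgebra.of ℤ G z ∨
        (u : MonoidAlgebra ℤ G) = -MonoidAlgebra.of ℤ G z := by
  classical
  have := Fintype.ofFinite G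
  constructor
  · intro hu
    have hc : ∀ g : G, (u : MonoidAlgebra ℤ G) * MonoidAlgebra.of ℤ G g =
        MonoidAlgebra.of ℤ G g * u := by
      intro g
      have := Subgroup.mem_center_iff.mp hu ((MonoidAlgebra.of ℤ G).toHomUnits g)
      have h2 := congrArg Units.val this
      simpa using h2.symm
    let a := (antip G u).unop
    let a' := (antip G (u⁻¹ : (MonoidAlgebra ℤ G)ˣ)).unop
    have haa : a' * a = 1 := by
      simp only [a, a']
      rw [← MulOpposite.unop_mul, ← map_mul, Units.mul_inv, map_one, MulOpposite.unop_one]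
    have hac : ∀ g : G, a * MonoidAlgebra.of ℤ G g = MonoidAlgebra.of ℤ G g * a := by
      intro g
      have := congrArg (fun t => (antip G t).unop) (hc g⁻¹)
      simp only [map_mul, antip_of, MulOpposite.unop_mul, MulOpposite.unop_op, inv_inv] at this
      exact this.symm
    have hle := coeff_one_le N hN hG (u * a) (a' * (u⁻¹ : (MonoidAlgebra ℤ G)ˣ))
      (by rw [mul_assoc, ← mul_assoc _ (u : MonoidAlgebra ℤ G), Units.inv_mul, one_mul, haa])
      (fun g => by rw [mul_assoc, hac, ← mul_assoc, hc, mul_assoc])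
    have ha : a = ∑ g, MonoidAlgebra.single g⁻¹ ((u : MonoidAlgebra ℤ G).coeff g) := by
      simp only [a, antip]
      rw [MonoidAlgebra.lift_apply, Finsupp.sum_fintype _ _ (by simp)]
      simp only [Finset.unop_sum, MonoidHom.coe_mk, OneHom.coe_mk, MulOpposite.unop_smul,
        MulOpposite.unop_op, MonoidAlgebra.of_apply, MonoidAlgebra.smul_single, smul_eq_mul,
        mul_one]
    have hsq : ((u : MonoidAlgebra ℤ G) * a).coeff 1 =
        ∑ g, (u : MonoidAlgebra ℤ G).coeff g * (u : MonoidAlgebra ℤ G).coeff g := by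
      rw [ha, Finset.mul_sum, MonoidAlgebra.coeff_sum, Finsupp.finsetSum_apply]
      refine Finset.sum_congr rfl (fun g _ => ?_)
      simp
    rw [hsq] at hle
    obtain ⟨z, hz⟩ : ∃ z, (u : MonoidAlgebra ℤ G).coeff z ≠ 0 := by
      by_contra h
      push Not at h
      apply u.ne_zero
      ext g
      simp [h g]
    rw [← Finset.add_sum_erase _ _ (Finset.mem_univ z)] at hle
    have hnn : 0 ≤ ∑ g ∈ Finset.univ.erase z,
        (u : MonoidAlgebra ℤ G).coeff g * (u : MonoidAlgebra ℤ G).coeff g :=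
      Finset.sum_nonneg (fun g _ => mul_self_nonneg _)
    have hpos : 0 < (u : MonoidAlgebra ℤ G).coeff z * (u : MonoidAlgebra ℤ G).coeff z :=
      mul_self_pos.mpr hz
    have h1 : (u : MonoidAlgebra ℤ G).coeff z * (u : MonoidAlgebra ℤ G).coeff z = 1 := by omega
    have h2 : ∀ g, g ≠ z → (u : MonoidAlgebra ℤ G).coeff g = 0 := by
      intro g hg
      have h3 : ∑ g ∈ Finset.univ.erase z,
        (u : MonoidAlgebra ℤ G).coeff g * (u : MonoidAlgebra ℤ G).coeff g = 0 := by omega
      rw [Finset.sum_eq_zero_iff_of_nonneg (fun g _ => mul_self_nonneg _)] at h3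
      exact mul_self_eq_zero.mp (h3 g (by simp [hg]))
    have h4 : (u : MonoidAlgebra ℤ G) =
        MonoidAlgebra.single z ((u : MonoidAlgebra ℤ G).coeff z) := by
      ext g
      by_cases hg : g = z
      · simp [hg]
      · simp [h2 g hg, Ne.symm hg]
    refine ⟨z, ?_, ?_⟩
    · rw [Subgroup.mem_center_iff]
      intro g
      have h5 := hc g
      rw [h4] at h5
      simp only [MonoidAlgebra.of_apply, MonoidAlgebra.single_mul_single, mul_one, one_mul] at h5
      exact (MonoidAlgebra.single_left_injective hz h5).symm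
    · rcases Int.eq_one_or_neg_one_of_mul_eq_one h1 with h5 | h5
      · left; rw [h4, h5]; rfl
      · right; rw [h4, h5]; simp
  · rintro ⟨z, hz, h⟩
    have hcz : ∀ x : MonoidAlgebra ℤ G,
        x * MonoidAlgebra.of ℤ G z = MonoidAlgebra.of ℤ G z * x := by
      intro x
      induction x using MonoidAlgebra.induction_linear with
      | zero => simp
      | add x y hx hy => rw [add_mul, mul_add, hx, hy]
      | single g r =>
        simp [MonoidAlgebra.single_mul_single, Subgroup.mem_center_iff.mp hz g]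
    rw [Subgroup.mem_center_iff]
    intro v
    ext1
    rcases h with h | h
    · simp only [Units.val_mul, h, hcz]
    · simp only [Units.val_mul, h, mul_neg, neg_mul, hcz]

end Pool.Agent.P.MP_ac4bd0_al
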