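import Pool.Agent.P.MP_ac4bd0_al.Wreath
import Pool.Agent.P.MP_ac4bd0_al.Units
import Pool.Agent.P.MP_ac4bd0_al.F200

set_option autoImplicit false

namespace Pool.Agent.P.MP_ac4bd0_al

/-- `H` embeds in a finite solvable group in which every element is conjugate to its `k`-th power
for all `k` prime to 210 and congruent to one modulo `m`. -/
def Emb (m : ℕ) (H : Type) [Group H] : Prop :=
  ∃ (G : Type) (_ : Group G) (_ : Finite G), Group.IsSolvable G ∧
    (∀ k : ℕ, k.Coprime 210 → k ≡ 1 [MOD m] → PowConj k G) ∧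
    ∃ f : H →* G, Function.Injective f

theorem Emb.of_injective {m : ℕ} {H K : Type} [Group H] [Group K] (h : Emb m K) (f : H →* K)
    (hf : Function.Injective f) : Emb m H := by
  obtain ⟨G, _, _, h1, h2, g, hg⟩ := h
  exact ⟨G, _, inferInstance, h1, h2, g.comp f, hg.comp hf⟩

theorem exists_hom_zmod (Q : Type) [Group Q] [Finite Q] [Group.IsSolvable Q] [Nontrivial Q] :
    ∃ p : ℕ, p.Prime ∧ ∃ φ : Q →* Multiplicative (ZMod p), Function.Surjective φ := by
  classical
  have hlt := Group.IsSolvable.commutator_lt_top_of_nontrivial Q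
  have hnt : Nontrivial (Abelianization Q) :=
    QuotientGroup.nontrivial_iff.mpr hlt.ne
  obtain ⟨ι, _, n, hn, ⟨e⟩⟩ := CommGroup.equiv_prod_multiplicative_zmod_of_finite (Abelianization Q)
  have hι : Nonempty ι := by
    by_contra h
    rw [not_nonempty_iff] at h
    have : Subsingleton (Abelianization Q) := e.injective.subsingleton
    exact not_subsingleton _ this
  obtain ⟨i⟩ := hι
  have hp : (n i).minFac.Prime := Nat.minFac_prime (hn i).ne'
  refine ⟨_, hp, (AddMonoidHom.toMultiplicative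
    (ZMod.castHom (Nat.minFac_dvd (n i)) (ZMod (n i).minFac)).toAddMonoidHom).comp
    ((Pi.evalMonoidHom _ i).comp (e.toMonoidHom.comp Abelianization.of)), ?_⟩
  simp only [MonoidHom.coe_comp]
  refine Function.Surjective.comp ?_ (Function.Surjective.comp (Function.surjective_eval i)
    (e.surjective.comp (QuotientGroup.mk_surjective)))
  exact ZMod.castHom_surjective (Nat.minFac_dvd (n i))

theorem emb_step {m p : ℕ} (hp : p.Prime) (hp1 : p ∣ 210) (hp2 : (p - 1) ∣ m) {H : Type} [Group H]
    (φ : H →* Multiplicative (ZMod p)) (hφ : Function.Surjective φ) (h : Emb m φ.ker) :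
    Emb m H := by
  obtain ⟨A, _, _, h1, h2, ι, hι⟩ := h
  have : Fact p.Prime := ⟨hp⟩
  have := Aff.solvable (p := p)
  refine ⟨Wr (Aff p) (ZMod p) A, inferInstance, inferInstance, Wr.solvable _ _ _, ?_,
    embed_wr φ hφ ι hι⟩
  intro k hk hk1
  exact Wr.powConj k (h2 k hk hk1)
    (Aff.cyc k (Nat.Coprime.coprime_dvd_right hp1 hk) (hk1.of_dvd hp2))

theorem emb_of_normal (m : ℕ) (n : ℕ) : ∀ (H : Type) [Group H] [Finite H] [Group.IsSolvable H]
    (E : Subgroup H) [E.Normal], E.index = n → Emb m E →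
    (∀ p : ℕ, p.Prime → p ∣ E.index → p ∣ 210 ∧ (p - 1) ∣ m) → Emb m H := by
  induction n using Nat.strong_induction_on with
  | _ n ih =>
  intro H _ _ _ E _ hn hE hπ
  by_cases htop : E = ⊤
  · subst htop
    exact hE.of_injective (Subgroup.topEquiv (G := H)).symm.toMonoidHom
      (Subgroup.topEquiv (G := H)).symm.injective
  · have : Nontrivial (H ⧸ E) := QuotientGroup.nontrivial_iff.mpr htop
    obtain ⟨p, hp, ψ, hψ⟩ := exists_hom_zmod (H ⧸ E)
    let φ := ψ.comp (QuotientGroup.mk' E)
    have hφ : Function.Surjective φ := hψ.comp (QuotientGroup.mk'_surjective E)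
    have hle : E ≤ φ.ker := by
      intro x hx
      rw [MonoidHom.mem_ker]
      simp only [φ, MonoidHom.comp_apply, QuotientGroup.mk'_apply]
      rw [(QuotientGroup.eq_one_iff x).mpr hx, map_one]
    have : NeZero p := ⟨hp.ne_zero⟩
    have hidx : φ.ker.index = p := by
      rw [Subgroup.index_ker, MonoidHom.range_eq_top.mpr hφ]
      simp
    have hmul : (E.subgroupOf φ.ker).index * p = E.index := by
      have := Subgroup.relIndex_mul_index hle
      rwa [hidx] at this
    have hpos : 0 < (E.subgroupOf φ.ker).index :=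
      Nat.pos_of_ne_zero Subgroup.index_ne_zero_of_finite
    obtain ⟨hp1, hp2⟩ := hπ p hp ⟨_, by rw [← hmul, mul_comm]⟩
    refine emb_step hp hp1 hp2 φ hφ ?_
    refine ih (E.subgroupOf φ.ker).index ?_ φ.ker (E.subgroupOf φ.ker) rfl ?_ ?_
    · rw [← hn, ← hmul]
      have := hp.one_lt
      nlinarith
    · exact hE.of_injective (Subgroup.subgroupOfEquivOfLe hle).toMonoidHom
        (Subgroup.subgroupOfEquivOfLe hle).injective
    · intro q hq hqd
      exact hπ q hq (hqd.trans ⟨p, hmul.symm⟩)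

theorem Emb.cut {m : ℕ} (hm : m = 4 ∨ m = 6) {H : Type} [Group H] (h : Emb m H) :
    ∃ (G : Type) (_ : Group G) (_ : Finite G), Group.IsSolvable G ∧
      (∀ u : (MonoidAlgebra ℤ G)ˣ, u ∈ Subgroup.center (MonoidAlgebra ℤ G)ˣ ↔
        ∃ z ∈ Subgroup.center G, (u : MonoidAlgebra ℤ G) = MonoidAlgebra.of ℤ G z ∨
          (u : MonoidAlgebra ℤ G) = -MonoidAlgebra.of ℤ G z) ∧
      ∃ f : H →* G, Function.Injective f := by
  obtain ⟨G, _, _, h1, h2, h3⟩ := h
  refine ⟨G, _, inferInstance, h1, ?_, h3⟩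
  have hcard : 0 < Nat.card G := Nat.card_pos
  have : NeZero (420 * Nat.card G) := ⟨by omega⟩
  have hN : ∀ g : G, g ^ (420 * Nat.card G) = 1 := fun g => by
    rw [mul_comm, pow_mul, pow_card_eq_one', one_pow]
  refine central_unit_trivial (420 * Nat.card G) hN ?_
  intro k hk
  have hk210 : k.Coprime 210 := Nat.Coprime.coprime_dvd_right ⟨2 * Nat.card G, by ring⟩ hk
  have h2' : ¬ 2 ∣ k := fun h => by
    have := Nat.Coprime.eq_one_of_dvd (Nat.Coprime.coprime_dvd_left h hk210) (by norm_num)
    omega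
  have h3' : ¬ 3 ∣ k := fun h => by
    have := Nat.Coprime.eq_one_of_dvd (Nat.Coprime.coprime_dvd_left h hk210) (by norm_num)
    omega
  by_cases hk1 : k ≡ 1 [MOD m]
  · exact Or.inl (h2 k hk210 hk1)
  · right
    intro g
    obtain ⟨c, hc⟩ : ∃ c, Nat.card G = c + 1 := ⟨Nat.card G - 1, by omega⟩
    have hco : (420 * c + 419).Coprime 210 := by
      have : 420 * c + 419 = 419 + 210 * (2 * c) := by ring
      rw [this, Nat.coprime_add_mul_left_left]
      norm_num
    have hmod : (420 * c + 419) * k ≡ 1 [MOD m] := by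
      have e : (420 * c + 419) * k = 12 * ((35 * c + 34) * k) + 11 * k := by ring
      unfold Nat.ModEq at hk1 ⊢
      rw [e]
      generalize (35 * c + 34) * k = t
      rcases hm with rfl | rfl
      · have : k % 4 = 3 := by omega
        omega
      · have : k % 6 = 5 := by omega
        omega
    have := h2 _ (Nat.Coprime.mul_left hco hk210) hmod g⁻¹
    have e : g⁻¹ ^ (420 * c + 419) = g := by
      have h4 := hN g⁻¹
      rw [hc, show 420 * (c + 1) = 420 * c + 419 + 1 by ring, pow_succ] at h4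
      exact mul_inv_eq_one.mp h4
    rwa [pow_mul, e] at this

theorem emb_bot (m : ℕ) (H : Type) [Group H] : Emb m (⊥ : Subgroup H) :=
  ⟨PUnit, inferInstance, inferInstance, inferInstance,
    fun k _ _ g => by rw [Subsingleton.elim (g ^ k) g]; exact IsConj.refl g,
    1, Function.injective_of_subsingleton _⟩

theorem emb_235 (H : Type) [Group H] [Finite H] [Group.IsSolvable H]
    (hπ : ∀ p : ℕ, p.Prime → p ∣ Nat.card H → p ∈ ({2, 3, 5} : Set ℕ)) : Emb 4 H := by
  refine emb_of_normal 4 _ H ⊥ rfl (emb_bot 4 H) ?_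
  intro p hp hd
  rw [Subgroup.index_bot] at hd
  rcases hπ p hp hd with rfl | rfl | rfl <;> norm_num

theorem emb_elem (E : Type) [Group E] [Finite E] (hab : ∀ x y : E, x * y = y * x)
    (hexp : ∀ x : E, x ^ 5 = 1) : Emb 6 E := by
  classical
  let _ : CommGroup E := { (inferInstance : Group E) with mul_comm := hab }
  obtain ⟨ι, _, n, hn, ⟨e⟩⟩ := CommGroup.equiv_prod_multiplicative_zmod_of_finite E
  have h5 : ∀ i, n i = 5 := by
    intro i
    have h1 := hexp (e.symm (Pi.mulSingle i (Multiplicative.ofAdd (1 : ZMod (n i)))))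
    rw [← map_pow, map_eq_one_iff _ e.symm.injective] at h1
    have h2 := congrFun h1 i
    simp only [Pi.pow_apply, Pi.mulSingle_eq_same, Pi.one_apply] at h2
    have h3 : ((5 : ℕ) : ZMod (n i)) = 0 := by
      have := congrArg Multiplicative.toAdd h2
      simpa using this
    rw [ZMod.natCast_eq_zero_iff] at h3
    have := hn i
    rcases (Nat.dvd_prime Nat.prime_five).mp h3 with h | h
    · omega
    · exact h
  have hemb : ∀ t : ℕ, t = 5 → ∃ j : Multiplicative (ZMod t) →* F200, Function.Injective j := by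
    rintro t rfl
    refine ⟨F200.tr.comp (AddMonoidHom.toMultiplicative (AddMonoidHom.inl _ _)), ?_⟩
    intro a b hab
    have := congrArg (fun X : F200 => X.v.1) hab
    exact this
  choose j hj using fun i => hemb (n i) (h5 i)
  have := F200.solvable
  refine ⟨ι → F200, inferInstance, inferInstance, solvable_pi _ _,
    fun k hk _ => powConj_pi k _ _ (F200.powConj k hk),
    (MonoidHom.pi (fun i => (j i).comp (Pi.evalMonoidHom _ i))).comp e.toMonoidHom, ?_⟩
  intro x y hxy
  apply e.injective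
  funext i
  exact hj i (congrFun hxy i)

theorem emb_2357 (H : Type) [Group H] [Finite H] [Group.IsSolvable H]
    (hπ : ∀ p : ℕ, p.Prime → p ∣ Nat.card H → p ∈ ({2, 3, 5, 7} : Set ℕ))
    (P : Sylow 5 H) (hP : (P : Subgroup H).Normal)
    (hab : ∀ x ∈ (P : Subgroup H), ∀ y ∈ (P : Subgroup H), x * y = y * x)
    (hexp : ∀ x ∈ (P : Subgroup H), x ^ 5 = 1) : Emb 6 H := by
  have : Fact (Nat.Prime 5) := ⟨Nat.prime_five⟩
  refine emb_of_normal 6 _ H P rfl ?_ ?_
  · exact emb_elem _ (fun x y => Subtype.ext (hab x x.2 y y.2))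
      (fun x => Subtype.ext (hexp x x.2))
  · intro p hp hd
    have h5 := P.not_dvd_index
    rcases hπ p hp (hd.trans (Subgroup.index_dvd_card _)) with rfl | rfl | rfl | rfl
    · norm_num
    · norm_num
    · exact absurd hd h5
    · norm_num

end Pool.Agent.P.MP_ac4bd0_al
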