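import Mathlib

set_option autoImplicit false
set_option linter.unusedSectionVars false

namespace Pool.Agent.P.MP_ac4bd0_al

/-- Every element is conjugate to its `k`-th power. -/
def PowConj (k : ℕ) (G : Type) [Group G] : Prop := ∀ g : G, IsConj g (g ^ k)

/-- Permutational wreath product of `A` with `S` acting on `Ω`. -/
@[ext]
structure Wr (S Ω A : Type) where
  s : S
  f : Ω → A

namespace Wr

variable {S Ω A : Type} [Group S] [MulAction S Ω] [Group A]

instance : Mul (Wr S Ω A) := ⟨fun X Y => ⟨X.s * Y.s, fun x => X.f (Y.s • x) * Y.f x⟩⟩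
instance : One (Wr S Ω A) := ⟨⟨1, fun _ => 1⟩⟩
instance : Inv (Wr S Ω A) := ⟨fun X => ⟨X.s⁻¹, fun x => (X.f (X.s⁻¹ • x))⁻¹⟩⟩

@[simp] theorem mul_s (X Y : Wr S Ω A) : (X * Y).s = X.s * Y.s := rfl
@[simp] theorem mul_f (X Y : Wr S Ω A) (x : Ω) : (X * Y).f x = X.f (Y.s • x) * Y.f x := rfl
@[simp] theorem one_s : (1 : Wr S Ω A).s = 1 := rfl
@[simp] theorem one_f (x : Ω) : (1 : Wr S Ω A).f x = 1 := rfl
@[simp] theorem inv_s (X : Wr S Ω A) : (X⁻¹).s = X.s⁻¹ := rfl
@[simp] theorem inv_f (X : Wr S Ω A) (x : Ω) : (X⁻¹).f x = (X.f (X.s⁻¹ • x))⁻¹ := rfl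

instance : Group (Wr S Ω A) :=
  Group.ofLeftAxioms
    (fun X Y Z => by ext <;> simp [mul_assoc, mul_smul])
    (fun X => by ext <;> simp)
    (fun X => by ext <;> simp)

instance [Finite S] [Finite Ω] [Finite A] : Finite (Wr S Ω A) :=
  Finite.of_injective (fun X : Wr S Ω A => (X.s, X.f)) (fun X Y h => by
    simp only [Prod.mk.injEq] at h
    exact Wr.ext h.1 h.2)

/-- Projection to the top group. -/
def top : Wr S Ω A →* S where
  toFun X := X.s
  map_one' := rfl
  map_mul' _ _ := rfl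

/-- Inclusion of the base group. -/
def base : (Ω → A) →* Wr S Ω A where
  toFun f := ⟨1, f⟩
  map_one' := rfl
  map_mul' f g := by ext <;> simp

theorem zpow_s (X : Wr S Ω A) (j : ℤ) : (X ^ j).s = X.s ^ j := map_zpow top X j

theorem pow_s (X : Wr S Ω A) (j : ℕ) : (X ^ j).s = X.s ^ j := map_pow top X j

theorem pow_f_of_fixed (X : Wr S Ω A) (x : Ω) (hx : X.s • x = x) (n : ℕ) :
    (X ^ n).f x = (X.f x) ^ n := by
  induction n with
  | zero => simp
  | succ n ih => rw [pow_succ, mul_f, hx, ih, pow_succ]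

theorem zpow_f_of_fixed (X : Wr S Ω A) (x : Ω) (hx : X.s • x = x) (n : ℤ) :
    (X ^ n).f x = (X.f x) ^ n := by
  rcases n with n | n
  · simpa using pow_f_of_fixed X x hx n
  · have hx' : (X⁻¹).s • x = x := by
      rw [inv_s, inv_smul_eq_iff, hx]
    rw [zpow_negSucc, ← inv_pow, pow_f_of_fixed _ x hx', zpow_negSucc, ← inv_pow, inv_f]
    congr 2
    rw [inv_s] at hx'
    rw [hx']

theorem isConj_of_cycles (X Y : Wr S Ω A) (hs : Y.s = X.s)
    (h : ∀ x : Ω, ∃ d : A, ∀ j : ℤ, X.s ^ j • x = x → d * (X ^ j).f x = (Y ^ j).f x * d) :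
    IsConj X Y := by
  classical
  choose d hd using h
  let R := MulAction.orbitRel (Subgroup.zpowers X.s) Ω
  let r : Ω → Ω := fun y => (Quotient.mk R y).out
  have hr : ∀ y, ∃ j : ℤ, X.s ^ j • r y = y := by
    intro y
    have : R (r y) y := Quotient.mk_out (s := R) y
    have h2 : y ∈ MulAction.orbit (Subgroup.zpowers X.s) (r y) :=
      MulAction.orbitRel_apply.mp (R.symm this)
    obtain ⟨⟨g, j, rfl⟩, hg⟩ := h2
    exact ⟨j, hg⟩
  have hr2 : ∀ y, r (X.s • y) = r y := by
    intro y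
    have : R (X.s • y) y :=
      MulAction.orbitRel_apply.mpr ⟨⟨X.s, Subgroup.mem_zpowers _⟩, rfl⟩
    simp only [r]
    rw [Quotient.sound this]
  choose J hJ using hr
  let b : Ω → A := fun y => (Y ^ J y).f (r y) * d (r y) * ((X ^ J y).f (r y))⁻¹
  have hb : ∀ y (j : ℤ), X.s ^ j • r y = y →
      b y = (Y ^ j).f (r y) * d (r y) * ((X ^ j).f (r y))⁻¹ := by
    intro y j hj
    have hfix : X.s ^ (J y - j) • r y = r y := by
      rw [sub_eq_neg_add, zpow_add, mul_smul, hJ, zpow_neg, inv_smul_eq_iff, hj]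
    have h1 := hd (r y) _ hfix
    have hX : (X ^ J y).f (r y) = (X ^ j).f (r y) * (X ^ (J y - j)).f (r y) := by
      have : X ^ J y = X ^ j * X ^ (J y - j) := by rw [← zpow_add]; congr 1; ring
      rw [this, mul_f, zpow_s, hfix]
    have hY : (Y ^ J y).f (r y) = (Y ^ j).f (r y) * (Y ^ (J y - j)).f (r y) := by
      have : Y ^ J y = Y ^ j * Y ^ (J y - j) := by rw [← zpow_add]; congr 1; ring
      rw [this, mul_f, zpow_s, hs, hfix]
    simp only [b]
    rw [hX, hY, mul_assoc ((Y ^ j).f (r y)), ← h1]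
    group
  rw [isConj_iff]
  refine ⟨base b, ?_⟩
  rw [mul_inv_eq_iff_eq_mul]
  ext y
  · simp [base, hs]
  · have h1 : X.s ^ (1 + J y) • r (X.s • y) = X.s • y := by
      rw [hr2, zpow_add, zpow_one, mul_smul, hJ]
    have h2 := hb _ _ h1
    rw [hr2, zpow_add, zpow_add, zpow_one, zpow_one, mul_f, mul_f, zpow_s, zpow_s, hs, hJ] at h2
    simp only [base, MonoidHom.coe_mk, OneHom.coe_mk, mul_f, one_smul]
    rw [h2]
    simp only [b]
    group

theorem powConj (k : ℕ) (hA : PowConj k A)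
    (hS : ∀ h : S, ∃ u : S, u * h ^ k * u⁻¹ = h ∧ ∀ x : Ω, ∃ i : ℤ, u⁻¹ • x = h ^ i • x) :
    PowConj k (Wr S Ω A) := by
  intro X
  obtain ⟨u, hu, hux⟩ := hS X.s
  let U : Wr S Ω A := ⟨u, fun _ => 1⟩
  have h1 : IsConj X (U * X ^ k * U⁻¹) := by
    apply isConj_of_cycles
    · simp [U, pow_s, hu]
    · intro x
      obtain ⟨i, hi⟩ := hux x
      let H : AddSubgroup ℤ :=
        { carrier := {j | X.s ^ j • x = x}
          zero_mem' := by simp
          add_mem' := by
            intro a b ha hb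
            simp only [Set.mem_ofPred_eq] at ha hb ⊢
            rw [zpow_add, mul_smul, hb, ha]
          neg_mem' := by
            intro a ha
            simp only [Set.mem_ofPred_eq] at ha ⊢
            rw [zpow_neg, inv_smul_eq_iff, ha] }
      obtain ⟨l, hl⟩ := Int.subgroup_cyclic H
      have hlH : X.s ^ l • x = x := by
        have : l ∈ H := by rw [hl]; exact AddSubgroup.subset_closure rfl
        exact this
      obtain ⟨d, hd⟩ := isConj_iff.mp (hA ((X ^ l).f x))
      refine ⟨(X ^ i).f x * d, ?_⟩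
      intro j hj
      have hjH : j ∈ H := hj
      rw [hl, AddSubgroup.mem_closure_singleton] at hjH
      obtain ⟨n, rfl⟩ := hjH
      have hfix : (X ^ l).s • x = x := by rw [zpow_s, hlH]
      have e1 : (X ^ (n • l)).f x = ((X ^ l).f x) ^ n := by
        rw [smul_eq_mul, mul_comm, zpow_mul, zpow_f_of_fixed _ _ hfix]
      have hfix2 : (X ^ (n • l)).s • (X.s ^ i • x) = X.s ^ i • x := by
        rw [zpow_s, ← mul_smul, ← zpow_add, add_comm, zpow_add, mul_smul, hj]
      have e2 : ((U * X ^ k * U⁻¹) ^ (n • l)).f x = ((X ^ (n • l)).f (X.s ^ i • x)) ^ k := by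
        rw [conj_zpow, ← zpow_natCast, ← zpow_mul, mul_comm (k : ℤ), zpow_mul, zpow_natCast,
          ← pow_f_of_fixed _ _ hfix2]
        simp [U, hi]
      have e3 : (X ^ (n • l)).f (X.s ^ i • x) * (X ^ i).f x = (X ^ i).f x * (X ^ (n • l)).f x := by
        have : X ^ (n • l) * X ^ i = X ^ i * X ^ (n • l) := by
          rw [← zpow_add, ← zpow_add, add_comm]
        have h2 := congrArg (fun Z : Wr S Ω A => Z.f x) this
        simp only [mul_f, zpow_s] at h2
        rw [hj] at h2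
        exact h2
      have e4 : (X ^ (n • l)).f (X.s ^ i • x) =
          (X ^ i).f x * ((X ^ l).f x) ^ n * ((X ^ i).f x)⁻¹ := by
        rw [← e1, ← e3]; group
      rw [e2, e4, e1, conj_pow]
      have e5 : (((X ^ l).f x) ^ n) ^ k = d * ((X ^ l).f x) ^ n * d⁻¹ := by
        rw [← conj_zpow, hd, ← zpow_natCast, ← zpow_natCast, ← zpow_mul, ← zpow_mul, mul_comm]
      rw [e5]
      group
  exact h1.trans (isConj_iff.mpr ⟨U⁻¹, by group⟩)

end Wr

theorem solvable_pi (Ω A : Type) [Group A] [hA : Group.IsSolvable A] :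
    Group.IsSolvable (Ω → A) := by
  obtain ⟨n, hn⟩ := hA
  refine ⟨⟨n, ?_⟩⟩
  rw [eq_bot_iff]
  intro f hf
  rw [Subgroup.mem_bot]
  funext x
  have := map_derivedSeries_le_derivedSeries (Pi.evalMonoidHom (fun _ : Ω => A) x) n
    (Subgroup.mem_map_of_mem _ hf)
  rw [hn, Subgroup.mem_bot] at this
  exact this

theorem powConj_pi (k : ℕ) (Ω A : Type) [Group A] (hA : PowConj k A) : PowConj k (Ω → A) := by
  intro g
  choose d hd using fun x => isConj_iff.mp (hA (g x))
  exact isConj_iff.mpr ⟨d, funext hd⟩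

theorem Wr.solvable (S Ω A : Type) [Group S] [MulAction S Ω] [Group A] [Group.IsSolvable S]
    [Group.IsSolvable A] : Group.IsSolvable (Wr S Ω A) := by
  have := solvable_pi Ω A
  refine Group.isSolvable_of_ker_le_range (Wr.base (S := S) (Ω := Ω) (A := A)) Wr.top ?_
  intro X hX
  refine ⟨X.f, ?_⟩
  have : X.s = 1 := hX
  ext <;> simp [Wr.base, this]

/-- The affine group of the line over `ZMod p`. -/
@[ext]
structure Aff (p : ℕ) where
  a : (ZMod p)ˣ
  b : ZMod p

namespace Aff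

variable {p : ℕ}

instance : Mul (Aff p) := ⟨fun X Y => ⟨X.a * Y.a, X.a * Y.b + X.b⟩⟩
instance : One (Aff p) := ⟨⟨1, 0⟩⟩
instance : Inv (Aff p) := ⟨fun X => ⟨X.a⁻¹, -(X.a⁻¹ * X.b)⟩⟩

@[simp] theorem mul_a (X Y : Aff p) : (X * Y).a = X.a * Y.a := rfl
@[simp] theorem mul_b (X Y : Aff p) : (X * Y).b = X.a * Y.b + X.b := rfl
@[simp] theorem one_a : (1 : Aff p).a = 1 := rfl
@[simp] theorem one_b : (1 : Aff p).b = 0 := rfl
@[simp] theorem inv_a (X : Aff p) : (X⁻¹).a = X.a⁻¹ := rfl
@[simp] theorem inv_b (X : Aff p) : (X⁻¹).b = -(X.a⁻¹ * X.b) := rfl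

instance : Group (Aff p) :=
  Group.ofLeftAxioms
    (fun X Y Z => by ext <;> simp [mul_assoc, mul_add, add_assoc])
    (fun X => by ext <;> simp)
    (fun X => by ext <;> simp)

instance [NeZero p] : Finite (Aff p) :=
  Finite.of_injective (fun X : Aff p => (X.a, X.b)) (fun X Y h => by
    simp only [Prod.mk.injEq] at h
    exact Aff.ext h.1 h.2)

instance : MulAction (Aff p) (ZMod p) where
  smul X x := X.a * x + X.b
  one_smul x := by
    show ((1 : Aff p).a : ZMod p) * x + (1 : Aff p).b = x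
    simp
  mul_smul X Y x := by
    show ((X * Y).a : ZMod p) * x + (X * Y).b = X.a * (Y.a * x + Y.b) + X.b
    simp only [mul_a, mul_b, Units.val_mul]
    ring

theorem smul_def (X : Aff p) (x : ZMod p) : X • x = X.a * x + X.b := rfl

/-- The linear part. -/
def lin : Aff p →* (ZMod p)ˣ where
  toFun X := X.a
  map_one' := rfl
  map_mul' _ _ := rfl

/-- Translations. -/
def tr : Multiplicative (ZMod p) →* Aff p where
  toFun t := ⟨1, t.toAdd⟩
  map_one' := rfl
  map_mul' s t := by ext <;> simp [add_comm]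

theorem solvable : Group.IsSolvable (Aff p) := by
  refine Group.isSolvable_of_ker_le_range tr lin ?_
  intro X hX
  refine ⟨Multiplicative.ofAdd X.b, ?_⟩
  have : X.a = 1 := hX
  ext <;> simp [tr, this]

theorem pow_b (X : Aff p) (n : ℕ) :
    ((X.a : ZMod p) - 1) * (X ^ n).b = ((X.a : ZMod p) ^ n - 1) * X.b := by
  induction n with
  | zero => simp
  | succ n ih =>
    rw [pow_succ', mul_b, mul_add, ← mul_assoc, mul_comm _ (X.a : ZMod p), mul_assoc, ih]
    ring

theorem cyc [hp : Fact p.Prime] (k : ℕ) (hk : Nat.Coprime k p) (hk1 : k ≡ 1 [MOD (p - 1)])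
    (h : Aff p) :
    ∃ u : Aff p, u * h ^ k * u⁻¹ = h ∧ ∀ x : ZMod p, ∃ i : ℤ, u⁻¹ • x = h ^ i • x := by
  by_cases ha : h.a = 1
  · by_cases hb : h.b = 0
    · have : h = 1 := Aff.ext ha hb
      exact ⟨1, by simp [this], fun x => ⟨0, by simp⟩⟩
    · have hh : h = tr (Multiplicative.ofAdd h.b) := Aff.ext ha rfl
      refine ⟨⟨(ZMod.unitOfCoprime k hk)⁻¹, 0⟩, ?_, ?_⟩
      · rw [hh, ← map_pow]
        ext
        · simp [tr]
        · simp only [tr, MonoidHom.coe_mk, OneHom.coe_mk, mul_b, mul_a, inv_b, mul_zero, neg_zero,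
            add_zero, zero_add, toAdd_pow, toAdd_ofAdd, nsmul_eq_mul]
          rw [← ZMod.coe_unitOfCoprime k hk, Units.inv_mul_cancel_left]
      · intro x
        set y := (⟨(ZMod.unitOfCoprime k hk)⁻¹, 0⟩ : Aff p)⁻¹ • x
        refine ⟨(((y - x) / h.b).val : ℕ), ?_⟩
        rw [zpow_natCast]
        generalize hn : ((y - x) / h.b).val = n
        have hn' : (n : ZMod p) = (y - x) / h.b := by rw [← hn, ZMod.natCast_zmod_val]
        rw [hh, ← map_pow, smul_def]
        simp only [tr, MonoidHom.coe_mk, OneHom.coe_mk, Units.val_one, one_mul,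
          toAdd_pow, toAdd_ofAdd, nsmul_eq_mul]
        rw [hn']
        field_simp
        ring
  · refine ⟨1, ?_, fun x => ⟨0, by simp⟩⟩
    have h1 : h.a ^ k = h.a := by
      have h2 : h.a ^ (p - 1) = 1 := ZMod.units_pow_card_sub_one_eq_one p h.a
      have := pow_eq_pow_of_modEq hk1 h2
      simpa using this
    have h3 : (h.a : ZMod p) - 1 ≠ 0 := fun h4 => ha (Units.ext (sub_eq_zero.mp h4))
    simp only [one_mul, inv_one, mul_one]
    ext
    · rw [show (h ^ k).a = h.a ^ k from map_pow lin h k, h1]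
    · apply mul_left_cancel₀ h3
      rw [pow_b, ← Units.val_pow_eq_pow_val, h1]

end Aff

/-- Kaloujnine-Krasner type embedding. -/
theorem embed_wr {H A : Type} [Group H] [Group A] {p : ℕ}
    (φ : H →* Multiplicative (ZMod p)) (hφ : Function.Surjective φ)
    (ι : φ.ker →* A) (hι : Function.Injective ι) :
    ∃ F : H →* Wr (Aff p) (ZMod p) A, Function.Injective F := by
  choose σ hσ using fun x : ZMod p => hφ (Multiplicative.ofAdd x)
  have hmem : ∀ (g : H) (x : ZMod p), (σ (Aff.tr (φ g) • x))⁻¹ * g * σ x ∈ φ.ker := by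
    intro g x
    rw [MonoidHom.mem_ker, map_mul, map_mul, map_inv, hσ, hσ, Aff.smul_def]
    simp only [Aff.tr, MonoidHom.coe_mk, OneHom.coe_mk, Units.val_one, one_mul, ofAdd_add,
      ofAdd_toAdd]
    rw [mul_assoc, mul_comm (φ g), inv_mul_cancel]
  refine ⟨MonoidHom.mk' (fun g => ⟨Aff.tr (φ g), fun x => ι ⟨_, hmem g x⟩⟩) ?_, ?_⟩
  · intro g h
    refine Wr.ext (by simp) ?_
    funext x
    simp only [Wr.mul_f]
    rw [← map_mul]
    congr 1
    apply Subtype.ext
    simp only [map_mul, mul_smul, Subgroup.coe_mul]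
    group
  · rw [injective_iff_map_eq_one]
    intro g hg
    have h1 : Aff.tr (φ g) = 1 := congrArg Wr.s hg
    have h2 : ι ⟨_, hmem g 0⟩ = 1 := congrFun (congrArg Wr.f hg) 0
    have h3 := congrArg Subtype.val ((injective_iff_map_eq_one ι).mp hι _ h2)
    simp only [h1, one_smul, Subgroup.coe_one] at h3
    calc g = σ 0 * ((σ 0)⁻¹ * g * σ 0) * (σ 0)⁻¹ := by group
      _ = 1 := by rw [h3]; group

end Pool.Agent.P.MP_ac4bd0_al
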